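import Pool.Agent.H800.TN.E2

/-!
# Project TN, part E (3): `s_E`
-/

set_option autoImplicit false
set_option linter.unusedSectionVars false

open CategoryTheory CategoryTheory.Abelian
open Pool.Agent.H379.GS Pool.Agent.H190.NK

namespace Pool.Agent.H800.TN

open Pool.Agent.H379.TN

section main

variable {K C : Type} [Field K] [Ring C] [Algebra K C] (π : C →ₐ[K] K)

/-- step 1 -/
theorem ev_step1 (X : Type) [AddCommGroup X] [Module C X] (h1 : EV C X C)
    (h2 : EV C X (Chi π)) : EV (AA π) (Rs (AA.φ π) X) (AA π) := by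
  intro n
  obtain ⟨P, _, _, iP, j, u, hP, hiP, h0, hex, hj, hji, hu, huj, hju⟩ := exists_P π
  have e1 := Rs.ev_of_ev (AA.φ π) (AA.φ_surj π) (AA.proj_C π) n X h1
  have e2 := Rs.ev_of_ev (AA.φ π) (AA.φ_surj π) (AA.proj_C π) n X h2
  have hI := AA.inj_ω π
  have hI' : Injective (ModuleCat.of (AA π) (Chi (AA.ω π))) :=
    Module.injective_object_of_injective_module _ _
  have e3 : Subsingleton (Ext.{0} (ModuleCat.of (AA π) (Rs (AA.φ π) X))
      (ModuleCat.of (AA π) (Chi (AA.ω π))) (n + 1)) :=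
    subsingleton_of_forall_eq 0 fun x => Ext.eq_zero_of_injective x
  have e4 := co_mid (shortExact_of j u hji hu huj hju)
    (ModuleCat.of (AA π) (Rs (AA.φ π) X)) (n + 1) e2 e3
  exact co_mid (shortExact_of iP (AA.sC π) hiP (AA.φ_surj π) h0 hex)
    (ModuleCat.of (AA π) (Rs (AA.φ π) X)) (n + 1) e4 e1

/-- the linear maps `Q → A` -/
theorem hom_Q (hc : ∀ f : Chi π →ₗ[C] C, f = 0) (g : Rs (AA.φ π) (Chi π) →ₗ[AA π] AA π)
    (x : Rs (AA.φ π) (Chi π)) : (g x).c = 0 ∧ (g x).k = 0 := by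
  constructor
  · have h1 := hc (Rs.desc (AA.φ π) (AA.φ_surj π) ((AA.sC π) ∘ₗ g))
    exact LinearMap.congr_fun h1 (Rs.un _ x)
  · have h1 : (AA.mk π 0 1 0 : AA π) • x = 0 := by
      apply Rs.ext
      simp
    have h2 := congrArg (fun y => (g y).k) h1
    simp only [map_smul, map_zero] at h2
    simpa using h2

/-- step 2 -/
theorem ev_step2 (hc : ∀ f : Chi π →ₗ[C] C, f = 0) (h1 : EV C (Chi π) C)
    (h2 : EV C (Chi π) (Chi π)) : EV (AA π) (Chi (AA.ω π)) (AA π) := by
  intro n
  obtain ⟨P, _, _, iP, j, u, hP, hiP, h0, hex, hj, hji, hu, huj, hju⟩ := exists_P π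
  have hS := shortExact_of j u hji hu huj hju
  have hP' : Projective (ModuleCat.of (AA π) P) := (IsProjective.iff_projective _).mp hP
  rcases n with _ | n
  · refine contra_one hS _ fun g => ?_
    let g₀ : Rs (AA.φ π) (Chi π) →ₗ[AA π] AA π := g.hom
    let t : K := (g₀ (Rs.mk _ (Chi.mk π 1))).q
    let m : AA π →ₗ[AA π] AA π :=
      { toFun := fun a => a * AA.mk π 0 t 0
        map_add' := fun a b => add_mul _ _ _
        map_smul' := fun a b => mul_assoc _ _ _ }
    refine ⟨ModuleCat.ofHom (m ∘ₗ iP), ?_⟩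
    apply ModuleCat.hom_ext
    refine LinearMap.ext fun (x : Rs (AA.φ π) (Chi π)) => ?_
    change iP (j x) * AA.mk π 0 t 0 = g₀ x
    have h3 : x = (algebraMap K (AA π) (Chi.un π (Rs.un (AA.φ π) x))) •
        (Rs.mk (AA.φ π) (Chi.mk π 1)) := by
      apply Rs.ext
      apply Chi.ext
      rw [Algebra.algebraMap_eq_smul_one]
      simp
    rw [hj]
    apply AA.ext
    · simp [(hom_Q π hc g₀ x).1]
    · simp [(hom_Q π hc g₀ x).2]
    · conv_rhs => rw [h3]
      rw [map_smul, smul_eq_mul, Algebra.algebraMap_eq_smul_one]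
      simp only [AA.q_mul, AA.c_mk, map_zero, zero_mul, AA.q_mk, AA.k_mk, zero_add, AA.c_ksmul,
        AA.c_one, AA.q_ksmul, AA.q_one, mul_zero, map_smul, map_one, smul_eq_mul, mul_one,
        add_zero, t]
  · exact contra_shift hS _ n (ev_step1 π (Chi π) h1 h2 n)

/-- step 3 -/
theorem ev_step3 (hc : ∀ f : Chi π →ₗ[C] C, f = 0) (h1 : EV C (Chi π) C)
    (h2 : EV C (Chi π) (Chi π)) (h3 : EV C (DA K C) (Chi π)) (h4 : EV C (DA K C) C) :
    EV (AA π) (DA K (AA π)) (AA π) := by
  intro n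
  have e1 := ev_step2 π hc h1 h2 n
  have e2 := ev_step1 π (DA K C) h4 h3 n
  -- the product
  have e3 : Subsingleton (Ext.{0} (ModuleCat.of (AA π) (Chi (AA.ω π) × Chi (AA.ω π)))
      (ModuleCat.of (AA π) (AA π)) (n + 1)) := by
    have hS := shortExact_of (LinearMap.inl (AA π) (Chi (AA.ω π)) (Chi (AA.ω π)))
      (LinearMap.snd (AA π) (Chi (AA.ω π)) (Chi (AA.ω π))) LinearMap.inl_injective
      LinearMap.snd_surjective (fun _ => rfl) (fun b hb => ⟨b.1, Prod.ext rfl hb.symm⟩)
    exact contra_mid hS _ _ e1 e1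
  let f : Rs (AA.φ π) (DA K C) →ₗ[AA π] DA K (AA π) :=
    { toFun := fun x => DA.mk
        { toFun := fun a => DA.ev (Rs.un _ x) a.c
          map_add' := fun a b => map_add _ _ _
          map_smul' := fun r a => map_smul _ _ _ }
      map_add' := fun _ _ => rfl
      map_smul' := fun _ _ => rfl }
  let g : DA K (AA π) →ₗ[AA π] (Chi (AA.ω π) × Chi (AA.ω π)) :=
    { toFun := fun x => (Chi.mk _ (DA.ev x (AA.mk π 0 1 0)), Chi.mk _ (DA.ev x (AA.mk π 0 0 1)))
      map_add' := fun _ _ => rfl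
      map_smul' := fun a x => by
        have h1 : (AA.mk π 0 1 0) * a = a.k • AA.mk π 0 1 0 := by apply AA.ext <;> simp
        have h2 : (AA.mk π 0 0 1) * a = a.k • AA.mk π 0 0 1 := by apply AA.ext <;> simp
        rw [DA.ev_smul, DA.ev_smul, h1, h2, map_smul, map_smul]
        rfl }
  have hf : Function.Injective f := by
    intro x y hxy
    apply Rs.ext
    apply DA.ext
    intro z
    exact congrArg (fun w => DA.ev w (AA.mk π z 0 0)) hxy
  have hg : Function.Surjective g := by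
    intro y
    refine ⟨DA.mk
      { toFun := fun a => a.k * Chi.un _ y.1 + a.q * Chi.un _ y.2
        map_add' := fun a b => by simp only [AA.k_add, AA.q_add]; ring
        map_smul' := fun r a => by
          simp only [AA.k_ksmul, AA.q_ksmul, RingHom.id_apply, smul_eq_mul]; ring }, ?_⟩
    apply Prod.ext
    · apply Chi.ext
      change (1 : K) * Chi.un _ y.1 + 0 * Chi.un _ y.2 = _
      ring
    · apply Chi.ext
      change (0 : K) * Chi.un _ y.1 + 1 * Chi.un _ y.2 = _
      ring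
  have h0 : ∀ x, g (f x) = 0 := by
    intro x
    apply Prod.ext
    · exact map_zero (DA.ev (Rs.un _ x))
    · exact map_zero (DA.ev (Rs.un _ x))
  have hex : ∀ b, g b = 0 → ∃ a, f a = b := by
    intro b hb
    refine ⟨Rs.mk _ (DA.mk
      { toFun := fun z => DA.ev b (AA.mk π z 0 0)
        map_add' := fun x y => by
          rw [← map_add]
          congr 1
          apply AA.ext <;> simp
        map_smul' := fun r x => by
          rw [RingHom.id_apply, ← map_smul]
          congr 1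
          apply AA.ext <;> simp }), ?_⟩
    apply DA.ext
    intro a
    change DA.ev b (AA.mk π a.c 0 0) = DA.ev b a
    have h1 : DA.ev b (AA.mk π 0 1 0) = 0 := congrArg Prod.fst hb
    have h2 : DA.ev b (AA.mk π 0 0 1) = 0 := congrArg Prod.snd hb
    have h3 : a = AA.mk π a.c 0 0 + (a.k • AA.mk π 0 1 0 + a.q • AA.mk π 0 0 1) := by
      apply AA.ext <;> simp
    conv_rhs => rw [h3]
    rw [map_add, map_add, map_smul, map_smul, h1, h2]
    simp
  exact contra_mid (shortExact_of f g hf hg h0 hex) _ _ e2 e3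

/-- step 4 -/
theorem no_embed (hc : ∀ f : Chi π →ₗ[C] C, f = 0) (hd : ∀ f : DA K C →ₗ[C] Chi π, f = 0)
    (I : Type) [AddCommGroup I] [Module (AA π) I] (ε : AA π →ₗ[AA π] I)
    (hε : Function.Injective ε) (hP : Module.Projective (AA π) I) (hI : Module.Injective (AA π) I) :
    False := by
  have hz : ε (AA.mk π 0 0 1) ≠ 0 := by
    intro h
    have h1 : AA.mk π 0 0 1 = 0 := hε (by rw [h, map_zero])
    exact one_ne_zero (congrArg AA.q h1)
  -- a linear form which is nonzero at `z`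
  obtain ⟨p, hp⟩ : ∃ p : I →ₗ[AA π] AA π, p (ε (AA.mk π 0 0 1)) ≠ 0 := by
    obtain ⟨s, hs⟩ := hP.out
    have h1 : s (ε (AA.mk π 0 0 1)) ≠ 0 := by
      intro h
      apply hz
      rw [← hs (ε (AA.mk π 0 0 1)), h, map_zero]
    obtain ⟨i, hi⟩ := Finsupp.ne_iff.1 h1
    exact ⟨Finsupp.lapply i ∘ₗ s, hi⟩
  -- the extension
  let πd : DA K C := DA.mk π.toLinearMap
  let i : Rs (AA.φ π) (Chi π) →ₗ[AA π] Rs (AA.φ π) (DA K C) := Rs.map (AA.φ π)
    { toFun := fun x => Chi.un π x • πd
      map_add' := fun x y => by rw [Chi.un_add, add_smul]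
      map_smul' := fun c x => by
        apply DA.ext
        intro y
        change π c * Chi.un π x * π y = Chi.un π x * π (y * c)
        rw [map_mul]
        ring }
  have hi : Function.Injective i := by
    intro x y hxy
    apply Rs.ext
    apply Chi.ext
    have h1 : Chi.un π (Rs.un _ x) * π 1 = Chi.un π (Rs.un _ y) * π 1 :=
      congrArg (fun w => DA.ev (Rs.un _ w) 1) hxy
    simpa using h1
  let g₀ : Rs (AA.φ π) (Chi π) →ₗ[AA π] AA π :=
    { toFun := fun x => AA.mk π 0 0 (Chi.un π (Rs.un _ x))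
      map_add' := fun x y => by apply AA.ext <;> simp
      map_smul' := fun a x => by apply AA.ext <;> simp }
  obtain ⟨g, hg⟩ := hI.out i hi (ε ∘ₗ g₀)
  -- the map `D C → Q`
  have h1 : ∀ x : Rs (AA.φ π) (DA K C), (AA.mk π 1 0 0) • x = x := by
    intro x
    apply Rs.ext
    simp
  have hk : ∀ x, (p (g x)).k = 0 := by
    intro x
    rw [← h1 x, map_smul, map_smul]
    simp
  have h2 : ∀ (γ : C) (x : DA K C), Rs.mk (AA.φ π) (γ • x) = (AA.mk π γ 0 0) • Rs.mk _ x :=
    fun _ _ => rfl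
  let θ : DA K C →ₗ[C] Chi π :=
    { toFun := fun x => Chi.mk π (p (g (Rs.mk (AA.φ π) x))).q
      map_add' := fun x y => by
        change Chi.mk π (p (g (Rs.mk (AA.φ π) x + Rs.mk (AA.φ π) y))).q = _
        rw [map_add, map_add]
        rfl
      map_smul' := fun γ x => by
        rw [h2, map_smul, map_smul]
        apply Chi.ext
        simp }
  have hθ := LinearMap.congr_fun (hd θ) πd
  have h3 : g (Rs.mk (AA.φ π) πd) = ε (AA.mk π 0 0 1) := by
    have h4 : i (Rs.mk (AA.φ π) (Chi.mk π 1)) = Rs.mk (AA.φ π) πd := by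
      apply Rs.ext
      change (1 : K) • πd = πd
      rw [one_smul]
    rw [← h4, hg]
    rfl
  have h5 : (p (ε (AA.mk π 0 0 1))).q = 0 := by
    rw [← h3]
    exact hθ
  have h6 := hom_Q π hc (p ∘ₗ ε ∘ₗ g₀) (Rs.mk _ (Chi.mk π 1))
  apply hp
  apply AA.ext
  · exact h6.1
  · exact h6.2
  · exact h5

end main

theorem s_E : S_E := by
  intro K C _ _ _ _ π h1 h2 h3 h4 h5 h6
  refine ⟨AA π, inferInstance, inferInstance, inferInstance, ev_step3 π h1 h2 h3 h5 h6, ?_⟩
  intro I _ _ ε hε hP hI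
  exact no_embed π h1 h4 I ε hε hP hI

end Pool.Agent.H800.TN
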