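import Pool.Agent.H379.TN.Stms

/-!
# Project TN, part E (1): general tools
Long exact sequences in the first variable, restriction along a surjective ring map with
projective target, the injective module of a character with an idempotent.
-/

set_option autoImplicit false
set_option linter.unusedSectionVars false

open CategoryTheory CategoryTheory.Abelian
open Pool.Agent.H379.GS Pool.Agent.H190.NK

namespace Pool.Agent.H800.TN

open Pool.Agent.H379.TN

section seq

variable {R : Type} [Ring R] {S : ShortComplex (ModuleCat.{0} R)} (hS : S.ShortExact)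

include hS

theorem contra_mid (Y : ModuleCat.{0} R) (n : ℕ) (h1 : Subsingleton (Ext S.X₁ Y n))
    (h3 : Subsingleton (Ext S.X₃ Y n)) : Subsingleton (Ext S.X₂ Y n) := by
  refine subsingleton_of_forall_eq 0 fun x => ?_
  obtain ⟨x₃, hx₃⟩ := Ext.contravariant_sequence_exact₂ hS Y x (Subsingleton.elim _ _)
  rw [← hx₃, Subsingleton.elim x₃ 0, Ext.comp_zero]

/-- dimension shift backwards -/
theorem contra_back [Projective S.X₂] (Y : ModuleCat.{0} R) (n : ℕ)
    (h : Subsingleton (Ext S.X₃ Y (n + 2))) : Subsingleton (Ext S.X₁ Y (n + 1)) := by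
  refine subsingleton_of_forall_eq 0 fun x => ?_
  obtain ⟨x₂, hx₂⟩ := Ext.contravariant_sequence_exact₁ hS Y x
    (show 1 + (n + 1) = n + 2 by omega) (Subsingleton.elim _ _)
  rw [← hx₂, Ext.eq_zero_of_projective x₂, Ext.comp_zero]

/-- extension of maps -/
theorem contra_ext (Y : ModuleCat.{0} R) (h : Subsingleton (Ext S.X₃ Y 1)) (g : S.X₁ ⟶ Y) :
    ∃ g' : S.X₂ ⟶ Y, S.f ≫ g' = g := by
  obtain ⟨x₂, hx₂⟩ := Ext.contravariant_sequence_exact₁ hS Y (Ext.mk₀ g)
    (show 1 + 0 = 1 by omega) (Subsingleton.elim _ _)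
  obtain ⟨g', rfl⟩ := (Ext.addEquiv₀ (X := S.X₂) (Y := Y)).symm.surjective x₂
  refine ⟨g', ?_⟩
  apply (Ext.addEquiv₀ (X := S.X₁) (Y := Y)).symm.injective
  have : Ext.addEquiv₀.symm (S.f ≫ g') = (Ext.mk₀ S.f).comp (Ext.mk₀ g') (zero_add 0) := by
    rw [Ext.mk₀_comp_mk₀]
    rfl
  rw [this]
  exact hx₂

end seq

theorem ses_ker {R A B : Type} [Ring R] [AddCommGroup A] [Module R A] [AddCommGroup B]
    [Module R B] (q : A →ₗ[R] B) :
    ∃ (K : Type) (_ : AddCommGroup K) (_ : Module R K) (i : K →ₗ[R] A), Function.Injective i ∧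
      (∀ a, q (i a) = 0) ∧ ∀ b, q b = 0 → ∃ a, i a = b :=
  ⟨LinearMap.ker q, inferInstance, inferInstance, (LinearMap.ker q).subtype,
    (LinearMap.ker q).injective_subtype, fun a => a.2, fun b hb => ⟨⟨b, hb⟩, rfl⟩⟩

section Rs

variable {A C : Type} [Ring A] [Ring C] (φ : A →+* C)

/-- the restriction of a module along `φ` -/
def Rs (_ : A →+* C) (X : Type) : Type := X

namespace Rs

variable {X : Type} [AddCommGroup X] [Module C X]

/-- the identity -/
def un (x : Rs φ X) : X := x
/-- the identity -/
def mk (x : X) : Rs φ X := x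

instance : AddCommGroup (Rs φ X) := inferInstanceAs (AddCommGroup X)
instance : Module A (Rs φ X) := Module.compHom X φ

theorem ext {x y : Rs φ X} (h : un φ x = un φ y) : x = y := h
@[simp] theorem un_mk (x : X) : un φ (mk φ x) = x := rfl
@[simp] theorem mk_un (x : Rs φ X) : mk φ (un φ x) = x := rfl
@[simp] theorem un_add (x y : Rs φ X) : un φ (x + y) = un φ x + un φ y := rfl
@[simp] theorem un_zero : un φ (0 : Rs φ X) = 0 := rfl
@[simp] theorem un_smul (a : A) (x : Rs φ X) : un φ (a • x) = φ a • un φ x := rfl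

variable {Y : Type} [AddCommGroup Y] [Module C Y]

/-- a linear map over `C` as a linear map over `A` -/
def map (f : X →ₗ[C] Y) : Rs φ X →ₗ[A] Rs φ Y where
  toFun x := mk φ (f (un φ x))
  map_add' x y := by
    apply ext
    simp
  map_smul' a x := by
    apply ext
    simp

@[simp] theorem un_map (f : X →ₗ[C] Y) (x : Rs φ X) : un φ (map φ f x) = f (un φ x) := rfl

/-- a linear map over `A` as a linear map over `C` -/
def desc (hφ : Function.Surjective φ) (f : Rs φ X →ₗ[A] Rs φ Y) : X →ₗ[C] Y where
  toFun x := un φ (f (mk φ x))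
  map_add' x y := by
    change un φ (f (mk φ x + mk φ y)) = _
    rw [map_add]
    rfl
  map_smul' c x := by
    obtain ⟨a, rfl⟩ := hφ c
    change un φ (f (a • mk φ x)) = _
    rw [map_smul]
    rfl

@[simp] theorem desc_apply (hφ : Function.Surjective φ) (f : Rs φ X →ₗ[A] Rs φ Y) (x : X) :
    desc φ hφ f x = un φ (f (mk φ x)) := rfl

/-- the identity `Rs (ι →₀ C) ≃ ι →₀ Rs C` -/
def finEquiv (ι : Type) : Rs φ (ι →₀ C) ≃ₗ[A] (ι →₀ Rs φ C) where
  toFun x := (show ι →₀ Rs φ C from un φ x)
  invFun x := mk φ (show ι →₀ C from x)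
  left_inv _ := rfl
  right_inv _ := rfl
  map_add' _ _ := rfl
  map_smul' a x := by
    apply Finsupp.ext
    intro i
    rfl

theorem projective_finsupp [Module.Projective A (Rs φ C)] (ι : Type) :
    Module.Projective A (Rs φ (ι →₀ C)) := by
  classical
  have : Module.Projective A (ι →₀ Rs φ C) :=
    Module.Projective.of_equiv (finsuppLequivDFinsupp A).symm
  exact Module.Projective.of_equiv (finEquiv φ ι).symm

/-- `Ext` vanishing passes to `A`. -/
theorem ev_of_ev (hφ : Function.Surjective φ) (hp : Module.Projective A (Rs φ C)) (k : ℕ) :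
    ∀ (X : Type) [AddCommGroup X] [Module C X], EV C X Y →
    Subsingleton (Ext.{0} (ModuleCat.of A (Rs φ X)) (ModuleCat.of A (Rs φ Y)) (k + 1)) := by
  induction k with
  | zero =>
    intro X _ _ hX
    let q : (X →₀ C) →ₗ[C] X := Finsupp.linearCombination C id
    have hq : Function.Surjective q := Finsupp.linearCombination_id_surjective C X
    obtain ⟨K, _, _, i, hi, h0, hex⟩ := ses_ker q
    have hS := shortExact_of i q hi hq h0 hex
    let i' : Rs φ K →ₗ[A] Rs φ (X →₀ C) := map φ i
    let q' : Rs φ (X →₀ C) →ₗ[A] Rs φ X := map φ q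
    have hS' := shortExact_of i' q' (fun a b h => hi h) hq h0 hex
    have hP := projective_finsupp (C := C) φ X
    have hP' : Projective (ModuleCat.of A (Rs φ (X →₀ C))) :=
      (IsProjective.iff_projective _).mp hP
    refine contra_one hS' _ fun g => ?_
    obtain ⟨g', hg'⟩ := contra_ext hS (ModuleCat.of C Y) (hX 0)
      (ModuleCat.ofHom (desc (X := K) (Y := Y) φ hφ g.hom))
    refine ⟨ModuleCat.ofHom (map φ g'.hom), ?_⟩
    apply ModuleCat.hom_ext
    refine LinearMap.ext fun ξ => ?_
    have := LinearMap.congr_fun (congrArg ModuleCat.Hom.hom hg') (un φ ξ)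
    exact this
  | succ k ih =>
    intro X _ _ hX
    let q : (X →₀ C) →ₗ[C] X := Finsupp.linearCombination C id
    have hq : Function.Surjective q := Finsupp.linearCombination_id_surjective C X
    obtain ⟨K, _, _, i, hi, h0, hex⟩ := ses_ker q
    have hS := shortExact_of i q hi hq h0 hex
    let i' : Rs φ K →ₗ[A] Rs φ (X →₀ C) := map φ i
    let q' : Rs φ (X →₀ C) →ₗ[A] Rs φ X := map φ q
    have hS' := shortExact_of i' q' (fun a b h => hi h) hq h0 hex
    have hP := projective_finsupp (C := C) φ X
    have hP' : Projective (ModuleCat.of A (Rs φ (X →₀ C))) :=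
      (IsProjective.iff_projective _).mp hP
    have hQ' : Projective (ModuleCat.of C (X →₀ C)) :=
      (IsProjective.iff_projective _).mp inferInstance
    exact contra_shift hS' _ k (ih K fun n => contra_back hS _ n (hX (n + 1)))

end Rs

end Rs

section inj

/-- The module of a character with an idempotent `e` with `e a = ω(a) e` is injective. -/
theorem injective_chi {K A : Type} [Field K] [Ring A] [Algebra K A] (ω : A →ₐ[K] K) (e : A)
    (he : ω e = 1) (hea : ∀ a, e * a = ω a • e) : Module.Injective A (Chi ω) := by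
  refine ⟨fun P Q _ _ _ _ f hf g => ?_⟩
  let : Module K P := Module.compHom P (algebraMap K A)
  let : Module K Q := Module.compHom Q (algebraMap K A)
  have hP : ∀ (c : K) (p : P), c • p = algebraMap K A c • p := fun _ _ => rfl
  have hQ : ∀ (c : K) (p : Q), c • p = algebraMap K A c • p := fun _ _ => rfl
  let f' : P →ₗ[K] Q :=
    { toFun := f
      map_add' := map_add f
      map_smul' := fun c p => by rw [hP, map_smul, RingHom.id_apply, hQ] }
  obtain ⟨r, hr⟩ := f'.exists_leftInverse_of_injective (LinearMap.ker_eq_bot.2 hf)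
  have hr' : ∀ p, r (f p) = p := fun p => LinearMap.congr_fun hr p
  let h : Q →ₗ[A] Chi ω :=
    { toFun := fun y => g (r (e • y))
      map_add' := fun x y => by rw [smul_add, map_add, map_add]
      map_smul' := fun a y => by
        rw [RingHom.id_apply, smul_smul, hea, Algebra.smul_def, mul_smul, ← hQ, map_smul, hP,
          map_smul]
        apply Chi.ext
        simp }
  refine ⟨h, fun p => ?_⟩
  change g (r (e • f p)) = g p
  rw [← map_smul, hr', map_smul]
  apply Chi.ext
  rw [Chi.un_smul, he, one_mul]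

end inj

end Pool.Agent.H800.TN
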