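import Pool.Agent.H800.TN.E1

/-!
# Project TN, part E (2): the one-point extension
-/

set_option autoImplicit false
set_option linter.unusedSectionVars false

open CategoryTheory CategoryTheory.Abelian
open Pool.Agent.H379.GS Pool.Agent.H190.NK

namespace Pool.Agent.H800.TN

open Pool.Agent.H379.TN

/-- The one-point extension of `C` by the module of the character `π`. -/
def AA {K C : Type} [Field K] [Ring C] [Algebra K C] (_ : C →ₐ[K] K) : Type := C × K × K

namespace AA

variable {K C : Type} [Field K] [Ring C] [Algebra K C] {π : C →ₐ[K] K}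

/-- first entry -/
def c (a : AA π) : C := a.1
/-- second entry -/
def k (a : AA π) : K := a.2.1
/-- third entry -/
def q (a : AA π) : K := a.2.2

theorem ext {a b : AA π} (h1 : a.c = b.c) (h2 : a.k = b.k) (h3 : a.q = b.q) : a = b :=
  Prod.ext h1 (Prod.ext h2 h3)

variable (π)

/-- constructor -/
def mk (c : C) (k q : K) : AA π := (c, k, q)

@[simp] theorem c_mk (x : C) (y z : K) : (mk π x y z).c = x := rfl
@[simp] theorem k_mk (x : C) (y z : K) : (mk π x y z).k = y := rfl
@[simp] theorem q_mk (x : C) (y z : K) : (mk π x y z).q = z := rfl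

instance : AddCommGroup (AA π) := inferInstanceAs (AddCommGroup (C × K × K))
instance : Module K (AA π) := inferInstanceAs (Module K (C × K × K))
instance [Module.Finite K C] : Module.Finite K (AA π) :=
  inferInstanceAs (Module.Finite K (C × K × K))

variable {π}

@[simp] theorem c_add (a b : AA π) : (a + b).c = a.c + b.c := rfl
@[simp] theorem k_add (a b : AA π) : (a + b).k = a.k + b.k := rfl
@[simp] theorem q_add (a b : AA π) : (a + b).q = a.q + b.q := rfl
@[simp] theorem c_sub (a b : AA π) : (a - b).c = a.c - b.c := rfl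
@[simp] theorem k_sub (a b : AA π) : (a - b).k = a.k - b.k := rfl
@[simp] theorem q_sub (a b : AA π) : (a - b).q = a.q - b.q := rfl
@[simp] theorem c_zero : (0 : AA π).c = 0 := rfl
@[simp] theorem k_zero : (0 : AA π).k = 0 := rfl
@[simp] theorem q_zero : (0 : AA π).q = 0 := rfl
@[simp] theorem c_ksmul (r : K) (a : AA π) : (r • a).c = r • a.c := rfl
@[simp] theorem k_ksmul (r : K) (a : AA π) : (r • a).k = r * a.k := rfl
@[simp] theorem q_ksmul (r : K) (a : AA π) : (r • a).q = r * a.q := rfl

instance : Mul (AA π) := ⟨fun a b => mk π (a.c * b.c) (a.k * b.k) (π a.c * b.q + a.q * b.k)⟩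
instance : One (AA π) := ⟨mk π 1 1 0⟩

@[simp] theorem c_mul (a b : AA π) : (a * b).c = a.c * b.c := rfl
@[simp] theorem k_mul (a b : AA π) : (a * b).k = a.k * b.k := rfl
@[simp] theorem q_mul (a b : AA π) : (a * b).q = π a.c * b.q + a.q * b.k := rfl
@[simp] theorem c_one : (1 : AA π).c = 1 := rfl
@[simp] theorem k_one : (1 : AA π).k = 1 := rfl
@[simp] theorem q_one : (1 : AA π).q = 0 := rfl

instance : Ring (AA π) where
  __ := (inferInstance : AddCommGroup (AA π))
  left_distrib a b c := by
    apply ext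
    · simp [mul_add]
    · simp [mul_add]
    · simp only [q_mul, q_add, k_add]
      ring
  right_distrib a b c := by
    apply ext
    · simp [add_mul]
    · simp [add_mul]
    · simp only [q_mul, q_add, c_add, map_add]
      ring
  zero_mul a := by apply ext <;> simp
  mul_zero a := by apply ext <;> simp
  mul_assoc a b c := by
    apply ext
    · simp [mul_assoc]
    · simp [mul_assoc]
    · simp only [q_mul, c_mul, k_mul, map_mul]
      ring
  one_mul a := by apply ext <;> simp
  mul_one a := by apply ext <;> simp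

instance : Algebra K (AA π) := Algebra.ofModule
  (fun r x y => by
    apply ext
    · simp
    · simp [mul_assoc]
    · simp only [q_mul, c_ksmul, q_ksmul, map_smul, smul_eq_mul]
      ring)
  (fun r x y => by
    apply ext
    · simp
    · simp only [k_mul, k_ksmul]
      ring
    · simp only [q_mul, k_ksmul, q_ksmul]
      ring)

variable (π)

/-- the projection to `C` -/
def φ : AA π →+* C where
  toFun a := a.c
  map_one' := rfl
  map_mul' _ _ := rfl
  map_zero' := rfl
  map_add' _ _ := rfl

/-- the second character -/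
def ω : AA π →ₐ[K] K where
  toFun a := a.k
  map_one' := rfl
  map_mul' _ _ := rfl
  map_zero' := rfl
  map_add' _ _ := rfl
  commutes' r := by
    rw [Algebra.algebraMap_eq_smul_one]
    simp

@[simp] theorem φ_apply (a : AA π) : φ π a = a.c := rfl
@[simp] theorem ω_apply (a : AA π) : ω π a = a.k := rfl

theorem φ_surj : Function.Surjective (φ π) := fun x => ⟨mk π x 0 0, rfl⟩

theorem inj_ω : Module.Injective (AA π) (Chi (ω π)) :=
  injective_chi (ω π) (mk π 0 1 0) rfl fun a => by apply ext <;> simp

/-- the section `C → A` -/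
def iC : Rs (φ π) C →ₗ[AA π] AA π where
  toFun x := mk π (Rs.un _ x) 0 0
  map_add' x y := by apply ext <;> simp
  map_smul' a x := by apply ext <;> simp

/-- the projection `A → C` -/
def sC : AA π →ₗ[AA π] Rs (φ π) C where
  toFun a := Rs.mk _ a.c
  map_add' _ _ := rfl
  map_smul' _ _ := rfl

theorem proj_C : Module.Projective (AA π) (Rs (φ π) C) :=
  Module.Projective.of_split (iC π) (sC π) (LinearMap.ext fun _ => rfl)

end AA

/-- a retract of the kernel of a split surjection -/
theorem split_ker {R A B : Type} [Ring R] [AddCommGroup A] [Module R A] [AddCommGroup B]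
    [Module R B] (q : A →ₗ[R] B) (i : B →ₗ[R] A) (h : ∀ b, q (i b) = b) :
    ∃ (P : Type) (_ : AddCommGroup P) (_ : Module R P) (iP : P →ₗ[R] A) (r : A →ₗ[R] P),
      (∀ p, r (iP p) = p) ∧ (∀ p, q (iP p) = 0) ∧ ∀ a, iP (r a) = a - i (q a) := by
  refine ⟨LinearMap.ker q, inferInstance, inferInstance, (LinearMap.ker q).subtype,
    (LinearMap.id - i ∘ₗ q).codRestrict _ fun a => by rw [LinearMap.mem_ker]; simp [h],
    fun p => ?_, fun p => p.2, fun a => rfl⟩
  apply Subtype.ext
  have := p.2
  rw [LinearMap.mem_ker] at this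
  simp [this]

section main

variable {K C : Type} [Field K] [Ring C] [Algebra K C] (π : C →ₐ[K] K)

/-- all the data on `P = A (0, 1, 0)` -/
theorem exists_P : ∃ (P : Type) (_ : AddCommGroup P) (_ : Module (AA π) P)
    (iP : P →ₗ[AA π] AA π) (j : Rs (AA.φ π) (Chi π) →ₗ[AA π] P) (u : P →ₗ[AA π] Chi (AA.ω π)),
    Module.Projective (AA π) P ∧ Function.Injective iP ∧
    (∀ p, AA.sC π (iP p) = 0) ∧ (∀ a, AA.sC π a = 0 → ∃ p, iP p = a) ∧
    (∀ x, iP (j x) = AA.mk π 0 0 (Chi.un π (Rs.un _ x))) ∧
    Function.Injective j ∧ Function.Surjective u ∧ (∀ x, u (j x) = 0) ∧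
    (∀ p, u p = 0 → ∃ x, j x = p) := by
  obtain ⟨P, _, _, iP, r, h1, h2, h3⟩ := split_ker (AA.sC π) (AA.iC π) (fun _ => rfl)
  let j₀ : Rs (AA.φ π) (Chi π) →ₗ[AA π] AA π :=
    { toFun := fun x => AA.mk π 0 0 (Chi.un π (Rs.un _ x))
      map_add' := fun x y => by apply AA.ext <;> simp
      map_smul' := fun a x => by apply AA.ext <;> simp }
  let k₀ : AA π →ₗ[AA π] Chi (AA.ω π) :=
    { toFun := fun a => Chi.mk _ a.k
      map_add' := fun _ _ => rfl
      map_smul' := fun _ _ => rfl }
  have hj : ∀ x, iP (r (j₀ x)) = AA.mk π 0 0 (Chi.un π (Rs.un _ x)) := by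
    intro x
    rw [h3]
    have : AA.sC π (j₀ x) = 0 := rfl
    rw [this, map_zero, sub_zero]
    rfl
  have hiP : Function.Injective iP := Function.LeftInverse.injective h1
  refine ⟨P, inferInstance, inferInstance, iP, r ∘ₗ j₀, k₀ ∘ₗ iP,
    Module.Projective.of_split iP r (LinearMap.ext h1), hiP, h2, fun a ha => ?_, hj, ?_, ?_, ?_, ?_⟩
  · exact ⟨r a, by rw [h3, ha, map_zero, sub_zero]⟩
  · intro x y hxy
    have h := hj x
    have hxy' : r (j₀ x) = r (j₀ y) := hxy
    rw [hxy', hj y] at h
    exact (congrArg AA.q h).symm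
  · intro y
    refine ⟨r (AA.mk π 0 (Chi.un _ y) 0), ?_⟩
    change Chi.mk _ (iP (r (AA.mk π 0 (Chi.un _ y) 0))).k = y
    rw [h3]
    apply Chi.ext
    simp [AA.sC, AA.iC]
  · intro x
    change Chi.mk _ (iP (r (j₀ x))).k = 0
    rw [hj]
    rfl
  · intro p hp
    refine ⟨Rs.mk _ (Chi.mk π (iP p).q), ?_⟩
    apply hiP
    change iP (r (j₀ _)) = iP p
    rw [hj]
    apply AA.ext
    · exact (h2 p).symm
    · exact (show (iP p).k = 0 from hp).symm
    · rfl

end main

end Pool.Agent.H800.TN
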